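import Mathlib
import Pool.Agent.MP_bc5f1c_co.Ex2
import Pool.Agent.MP_bc5f1c_co.Ex3

/-!
The order of the error term in the blowup problem for odd `r ≥ 5`, in terms of an unbalanced
Zarankiewicz number.
-/

set_option autoImplicit false

namespace Pool.Agent.Results.MP_bc5f1c_co.ExactOrder

open Pool.Agent.MP_bc5f1c_co in
/-- `T` is the largest `t` with `z(t, n; s, s) ≥ t ^ 2`. The part `V_i` is the set of vertices
with first coordinate `i`. -/
theorem result (r s : ℕ) (hr : Odd r) (hr5 : 5 ≤ r) (hs : 2 ≤ s) :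
    ∃ c C : ℝ, 0 < c ∧ 0 < C ∧ ∃ n₀ : ℕ, ∀ n : ℕ, n₀ ≤ n → ∃ T : ℕ,
      IsGreatest {t : ℕ | t ^ 2 ≤ SimpleGraph.zarankiewicz t n s s} T ∧
      (∀ (G : SimpleGraph (Fin r × Fin n)) [DecidableRel G.Adj],
        (∀ x y, x.1 = y.1 → ¬ G.Adj x y) →
        (G.maxDegree : ℝ) ≤ ((r : ℝ) - 1) / (2 * (r : ℝ) - 4) * n - C * T →
        ∃ I : Finset (Fin r × Fin n), G.IsIndepSet (I : Set (Fin r × Fin n)) ∧
          ∀ i, (I.filter (fun x => x.1 = i)).card = s) ∧
      ∃ (G : SimpleGraph (Fin r × Fin n)) (_ : DecidableRel G.Adj),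
        (∀ x y, x.1 = y.1 → ¬ G.Adj x y) ∧
        (G.maxDegree : ℝ) ≤ ((r : ℝ) - 1) / (2 * (r : ℝ) - 4) * n - c * T ∧
        ¬ ∃ I : Finset (Fin r × Fin n), G.IsIndepSet (I : Set (Fin r × Fin n)) ∧
          ∀ i, (I.filter (fun x => x.1 = i)).card = s := by
  classical
  obtain ⟨b, rfl⟩ : ∃ b, r = 2 * b + 3 := by
    obtain ⟨a, rfl⟩ := hr
    exact ⟨a - 1, by omega⟩
  obtain ⟨C, hC, n₁, hup⟩ := blow_z (b + 1) s (by omega) hs
  obtain ⟨K, n₂, hK, hlo⟩ := Low.lower_z b s hs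
  have hK' : (0 : ℝ) < K := by exact_mod_cast hK
  have hb : (0 : ℝ) < 2 * b + 1 := by positivity
  refine ⟨1 / (2 * (2 * b + 1) * K), 2 * C, by positivity, by positivity, max (max n₁ n₂) 1,
    fun n hn => ?_⟩
  have hn1 : n₁ ≤ n := (le_max_left _ _).trans ((le_max_left _ _).trans hn)
  have hn2 : n₂ ≤ n := (le_max_right _ _).trans ((le_max_left _ _).trans hn)
  have hn3 : 1 ≤ n := (le_max_right _ _).trans hn
  have hbd : ∀ t : ℕ, t ^ 2 ≤ SimpleGraph.zarankiewicz t n s s → t ≤ n := by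
    intro t ht
    rcases Nat.eq_zero_or_pos t with rfl | h
    · exact Nat.zero_le _
    · obtain ⟨A, -, hA⟩ := Low.exists_z t n s (t ^ 2) (Nat.one_le_pow _ _ h) ht
      have e1 := Finset.card_le_univ A
      rw [Fintype.card_prod, Fintype.card_fin, Fintype.card_fin] at e1
      exact Nat.le_of_mul_le_mul_left (by rw [← sq]; exact hA.trans e1) h
  have hone : 1 ^ 2 ≤ SimpleGraph.zarankiewicz 1 n s s := by
    have := Low.card_le_z (α := Fin 1) (β := Fin n) (Fintype.card_fin 1) (Fintype.card_fin n)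
      (show 1 ≤ s by omega) {(0, ⟨0, hn3⟩)} (fun X Y hX _ _ => by
        have := Finset.card_le_univ X
        rw [Fintype.card_fin] at this
        omega)
    simpa using this
  obtain ⟨T, hT⟩ : ∃ T, IsGreatest {t : ℕ | t ^ 2 ≤ SimpleGraph.zarankiewicz t n s s} T :=
    ⟨_, Nat.sSup_mem ⟨1, hone⟩ ⟨n, fun t ht => hbd t ht⟩,
      fun t ht => le_csSup ⟨n, fun t ht => hbd t ht⟩ ht⟩
  have hT1 : (1 : ℝ) ≤ T := by exact_mod_cast hT.2 hone
  have e1 : (((2 * b + 3 : ℕ) : ℝ) - 1) / (2 * ((2 * b + 3 : ℕ) : ℝ) - 4) * n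
      = (2 * b + 2) * n / (2 * (2 * b + 1)) := by
    have : (2 * ((2 * b + 3 : ℕ) : ℝ) - 4) = 2 * (2 * b + 1) := by push_cast; ring
    rw [this]
    push_cast
    ring
  refine ⟨T, hT, fun G _ h2 h3 => ?_, ?_⟩
  · have hz : SimpleGraph.zarankiewicz (T + 1) n s s < (T + 1) ^ 2 := by
      by_contra hc
      have := hT.2 (not_lt.1 hc)
      omega
    obtain ⟨I, hI1, hI2⟩ := hup n hn1 (T + 1) hz (Fin (2 * b + 3) × Fin n) (Fin (2 * b + 3))
      Prod.fst G (by rw [Fintype.card_fin]; ring) (fun i => by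
        have : pt Prod.fst (Finset.univ : Finset (Fin (2 * b + 3) × Fin n)) {i}
            = {i} ×ˢ Finset.univ := by
          ext x
          simp only [mem_pt, Finset.mem_univ, true_and, Finset.mem_product, and_true]
        rw [this]
        simp) (fun x => by
        have e2 : nb G x = G.neighborFinset x := by ext y; simp
        have e3 : ((nb G x).card : ℝ) ≤ G.maxDegree := by
          rw [e2, SimpleGraph.card_neighborFinset_eq_degree]
          exact_mod_cast G.degree_le_maxDegree x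
        have e4 : ((b + 1 : ℕ) : ℝ) / (2 * ((b + 1 : ℕ) : ℝ) - 1) * n
            = (2 * b + 2) * n / (2 * (2 * b + 1)) := by
          have : (2 * ((b + 1 : ℕ) : ℝ) - 1) = 2 * b + 1 := by push_cast; ring
          rw [this]
          push_cast
          field_simp
        have e5 := mul_le_mul_of_nonneg_left hT1 hC.le
        rw [e1] at h3
        rw [e4]
        push_cast
        linarith)
    refine ⟨Finset.univ.biUnion I, ?_, fun i => ?_⟩
    · intro x hx y hy _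
      obtain ⟨i, -, hx⟩ := Finset.mem_biUnion.1 (Finset.mem_coe.1 hx)
      obtain ⟨j, -, hy⟩ := Finset.mem_biUnion.1 (Finset.mem_coe.1 hy)
      by_cases hij : i = j
      · apply h2
        rw [((hI1 i (Finset.mem_univ _)).2 x hx).1, ((hI1 j (Finset.mem_univ _)).2 y hy).1, hij]
      · exact hI2 i (Finset.mem_univ _) j (Finset.mem_univ _) hij x hx y hy
    · rw [← (hI1 i (Finset.mem_univ _)).1]
      congr 1
      ext x
      simp only [Finset.mem_filter, Finset.mem_biUnion, Finset.mem_univ, true_and]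
      constructor
      · rintro ⟨⟨j, hx⟩, e⟩
        rw [← e, ((hI1 j (Finset.mem_univ _)).2 x hx).1]
        exact hx
      · exact fun hx => ⟨⟨i, hx⟩, ((hI1 i (Finset.mem_univ _)).2 x hx).1⟩
  · obtain ⟨w, D, h1, h2, G, g1, g2, g3⟩ := hlo n hn2 T hT.1
    refine ⟨G, inferInstance, g1, ?_, g3⟩
    have hD : G.maxDegree ≤ D :=
      G.maxDegree_le_of_forall_degree_le D fun x =>
        g2 x (G.neighborFinset x) fun y hy => (G.mem_neighborFinset x y).1 hy
    have hD' : (G.maxDegree : ℝ) ≤ D := by exact_mod_cast hD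
    have h1' : (T : ℝ) ≤ K * w := by exact_mod_cast h1
    have h2' : (2 * (b : ℝ) + 1) * (2 * D) + w ≤ (2 * b + 2) * n := by exact_mod_cast h2
    have e2 : 1 / (2 * (2 * b + 1) * (K : ℝ)) * T ≤ (w : ℝ) / (2 * (2 * b + 1)) := by
      calc _ ≤ 1 / (2 * (2 * b + 1) * (K : ℝ)) * (K * w) :=
            mul_le_mul_of_nonneg_left h1' (by positivity)
        _ = _ := by field_simp
    have e3 : (D : ℝ) ≤ (2 * b + 2) * n / (2 * (2 * b + 1)) - (w : ℝ) / (2 * (2 * b + 1)) := by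
      rw [← sub_div, le_div_iff₀ (by positivity)]
      linarith
    rw [e1]
    linarith

/-- An unconditional lower bound for the error term, for every odd `r ≥ 3`. -/
theorem small_side (r s : ℕ) (hr : Odd r) (hr3 : 3 ≤ r) (hs : 2 ≤ s) :
    ∃ c : ℝ, 0 < c ∧ ∃ n₀ : ℕ, ∀ n : ℕ, n₀ ≤ n →
      ∃ (G : SimpleGraph (Fin r × Fin n)) (_ : DecidableRel G.Adj),
        (∀ x y, x.1 = y.1 → ¬ G.Adj x y) ∧
        (G.maxDegree : ℝ) ≤
          ((r : ℝ) - 1) / (2 * (r : ℝ) - 4) * n - c * (n : ℝ) ^ (1 - 2 / ((s : ℝ) + 2)) ∧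
        ¬ ∃ I : Finset (Fin r × Fin n), G.IsIndepSet (I : Set (Fin r × Fin n)) ∧
          ∀ i, (I.filter (fun x => x.1 = i)).card = s := by
  classical
  obtain ⟨b, rfl⟩ : ∃ b, r = 2 * b + 3 := by
    obtain ⟨a, rfl⟩ := hr
    exact ⟨a - 1, by omega⟩
  obtain ⟨C, n₀, hC, h⟩ := Pool.Agent.MP_bc5f1c_co.Low.lower b s hs
  have hC' : (0 : ℝ) < C := by exact_mod_cast hC
  refine ⟨1 / (2 * (2 * b + 1) * (C : ℝ) ^ s), by positivity, n₀, fun n hn => ?_⟩
  obtain ⟨u, D, h1, h2, G, g1, g2, g3⟩ := h n hn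
  refine ⟨G, inferInstance, g1, ?_, g3⟩
  have hD : G.maxDegree ≤ D :=
    G.maxDegree_le_of_forall_degree_le D fun x =>
      g2 x (G.neighborFinset x) fun y hy => (G.mem_neighborFinset x y).1 hy
  have hD' : (G.maxDegree : ℝ) ≤ D := by exact_mod_cast hD
  have h1' : (n : ℝ) ≤ ((C : ℝ) * u) ^ (s + 2) := by exact_mod_cast h1
  have h2' : (2 * (b : ℝ) + 1) * (2 * D) + (u : ℝ) ^ s ≤ (2 * b + 2) * n := by exact_mod_cast h2
  have hs0 : (0 : ℝ) < (s : ℝ) + 2 := by positivity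
  have he : (0 : ℝ) ≤ 1 - 2 / ((s : ℝ) + 2) := by
    rw [sub_nonneg, div_le_one hs0]
    linarith [Nat.cast_nonneg (α := ℝ) s]
  have hp : (n : ℝ) ^ (1 - 2 / ((s : ℝ) + 2)) ≤ (C : ℝ) ^ s * (u : ℝ) ^ s := by
    refine (Real.rpow_le_rpow (Nat.cast_nonneg n) h1' he).trans (le_of_eq ?_)
    rw [← Real.rpow_natCast, ← Real.rpow_mul (by positivity), ← mul_pow, ← Real.rpow_natCast]
    congr 1
    push_cast
    field_simp
    ring
  have hb : (0 : ℝ) < 2 * b + 1 := by positivity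
  have e1 : (((2 * b + 3 : ℕ) : ℝ) - 1) / (2 * ((2 * b + 3 : ℕ) : ℝ) - 4) * n
      = (2 * b + 2) * n / (2 * (2 * b + 1)) := by
    have : (2 * ((2 * b + 3 : ℕ) : ℝ) - 4) = 2 * (2 * b + 1) := by push_cast; ring
    rw [this]
    push_cast
    ring
  have e2 : 1 / (2 * (2 * b + 1) * (C : ℝ) ^ s) * (n : ℝ) ^ (1 - 2 / ((s : ℝ) + 2))
      ≤ (u : ℝ) ^ s / (2 * (2 * b + 1)) := by
    calc _ ≤ 1 / (2 * (2 * b + 1) * (C : ℝ) ^ s) * ((C : ℝ) ^ s * (u : ℝ) ^ s) :=
          mul_le_mul_of_nonneg_left hp (by positivity)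
      _ = _ := by field_simp
  have e3 : (D : ℝ) ≤ (2 * b + 2) * n / (2 * (2 * b + 1)) - (u : ℝ) ^ s / (2 * (2 * b + 1)) := by
    rw [← sub_div, le_div_iff₀ (by positivity)]
    linarith
  rw [e1]
  linarith

end Pool.Agent.Results.MP_bc5f1c_co.ExactOrder
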