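import Mathlib
import Pool.Agent.MP_bc5f1c_co.Final

/-!
Blowups of independent transversals in `r`-partite graphs, for every odd `r ≥ 5`.
-/

set_option autoImplicit false

namespace Pool.Agent.Results.MP_bc5f1c_co.OddBlowup

open Pool.Agent.MP_bc5f1c_co in
/-- The vertex `x` lies in the part `V_(part x)`. The parts are independent and have `n` vertices
each; the conclusion is an independent set with exactly `s` vertices in each part. -/
theorem result (r s : ℕ) (hr : Odd r) (hr5 : 5 ≤ r) (hs : 2 ≤ s) :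
    ∃ C : ℝ, 0 < C ∧ ∃ n₀ : ℕ, ∀ n : ℕ, n₀ ≤ n →
      ∀ (V : Type) [Fintype V] (G : SimpleGraph V) [DecidableRel G.Adj] (part : V → Fin r),
        (∀ i, (Finset.univ.filter (fun x => part x = i)).card = n) →
        (∀ x y, part x = part y → ¬ G.Adj x y) →
        (G.maxDegree : ℝ) ≤
          ((r : ℝ) - 1) / (2 * (r : ℝ) - 4) * n - C * (n : ℝ) ^ (1 - 1 / (s : ℝ)) →
        ∃ I : Finset V, G.IsIndepSet (I : Set V) ∧
          ∀ i, (I.filter (fun x => part x = i)).card = s := by
  classical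
  obtain ⟨a, rfl⟩ := hr
  obtain ⟨C, hC, n₀, h⟩ := blow_exists a s (by omega) hs
  refine ⟨C, hC, n₀, fun n hn V _ G _ part h1 h2 h3 => ?_⟩
  have ha : (2 : ℝ) ≤ a := by exact_mod_cast (show 2 ≤ a by omega)
  obtain ⟨I, hI1, hI2⟩ := h n hn V (Fin (2 * a + 1)) part G (Fintype.card_fin _) (fun i => by
      rw [← h1 i]
      congr 1
      ext x
      simp) (fun x => by
      refine le_trans ?_ (h3.trans (le_of_eq ?_))
      · have e1 : nb G x = G.neighborFinset x := by ext y; simp
        rw [e1, SimpleGraph.card_neighborFinset_eq_degree]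
        exact_mod_cast G.degree_le_maxDegree x
      · have h4 : (2 * a - 1 : ℝ) ≠ 0 := by linarith
        have h5 : (2 * ((2 * a + 1 : ℕ) : ℝ) - 4) = 2 * (2 * a - 1) := by push_cast; ring
        rw [h5]
        push_cast
        field_simp
        ring)
  refine ⟨Finset.univ.biUnion I, ?_, fun i => ?_⟩
  · intro x hx y hy _
    obtain ⟨i, -, hx⟩ := Finset.mem_biUnion.1 (Finset.mem_coe.1 hx)
    obtain ⟨j, -, hy⟩ := Finset.mem_biUnion.1 (Finset.mem_coe.1 hy)
    by_cases hij : i = j
    · apply h2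
      rw [((hI1 i (Finset.mem_univ _)).2 x hx).1, ((hI1 j (Finset.mem_univ _)).2 y hy).1, hij]
    · exact hI2 i (Finset.mem_univ _) j (Finset.mem_univ _) hij x hx y hy
  · rw [← (hI1 i (Finset.mem_univ _)).1]
    congr 1
    ext x
    simp only [Finset.mem_filter, Finset.mem_biUnion, Finset.mem_univ, true_and]
    constructor
    · rintro ⟨⟨j, hx⟩, e⟩
      rw [← e, ((hI1 j (Finset.mem_univ _)).2 x hx).1]
      exact hx
    · exact fun hx => ⟨⟨i, hx⟩, ((hI1 i (Finset.mem_univ _)).2 x hx).1⟩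

end Pool.Agent.Results.MP_bc5f1c_co.OddBlowup
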