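import Mathlib
import Pool.Agent.MP_bc5f1c_co.Ct2
import Pool.Agent.MP_bc5f1c_co.Ct3

/-!
The least number of independent transversals below the threshold, for odd `r ≥ 5`.
-/

set_option autoImplicit false

namespace Pool.Agent.Results.MP_bc5f1c_co.OddCount

open Pool.Agent.MP_bc5f1c_co in
/-- The part `V_i` is the set of vertices with first coordinate `i`; an independent transversal
is given by the map `T` choosing the vertex `(i, T i)` in `V_i`. -/
theorem result (r : ℕ) (hr : Odd r) (hr5 : 5 ≤ r) :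
    ∃ c C : ℝ, 0 < c ∧ 0 < C ∧ ∃ n₀ : ℕ, ∀ n : ℕ, n₀ ≤ n → ∀ (D : ℕ) (t : ℝ), 0 < t →
      (D : ℝ) = ((r : ℝ) - 1) / (2 * (r : ℝ) - 4) * n - t →
      (∀ (G : SimpleGraph (Fin r × Fin n)) [DecidableRel G.Adj],
        (∀ x y, x.1 = y.1 → ¬ G.Adj x y) → G.maxDegree ≤ D →
        c * t ^ 2 * (n : ℝ) ^ (r - 2) ≤
          {T : Fin r → Fin n | ∀ i j, ¬ G.Adj (i, T i) (j, T j)}.ncard) ∧
      ∃ (G : SimpleGraph (Fin r × Fin n)) (_ : DecidableRel G.Adj),
        (∀ x y, x.1 = y.1 → ¬ G.Adj x y) ∧ G.maxDegree ≤ D ∧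
        ({T : Fin r → Fin n | ∀ i j, ¬ G.Adj (i, T i) (j, T j)}.ncard : ℝ) ≤
          C * t ^ 2 * (n : ℝ) ^ (r - 2) := by
  classical
  obtain ⟨b, rfl⟩ : ∃ b, r = 2 * b + 3 := by
    obtain ⟨a, rfl⟩ := hr
    exact ⟨a - 1, by omega⟩
  obtain ⟨c, hc, n₁, hlo⟩ := count_lower (b + 1) (by omega)
  have hb : (0 : ℝ) < 2 * b + 1 := by positivity
  refine ⟨c, 2 * ((6 * b + 5) * (2 * b + 1)) ^ 2, hc, by positivity, max n₁ 1,
    fun n hn D t ht hD => ?_⟩
  have hn1 : n₁ ≤ n := (le_max_left _ _).trans hn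
  have hn3 : 1 ≤ n := (le_max_right _ _).trans hn
  have hnR : (0 : ℝ) < n := by exact_mod_cast hn3
  have e0 : 2 * b + 3 - 2 = 2 * b + 1 := by omega
  have e1 : (((2 * b + 3 : ℕ) : ℝ) - 1) / (2 * ((2 * b + 3 : ℕ) : ℝ) - 4) * n
      = (b + 1) * n / (2 * b + 1) := by
    have : (2 * ((2 * b + 3 : ℕ) : ℝ) - 4) = 2 * (2 * b + 1) := by push_cast; ring
    rw [this]
    push_cast
    field_simp
    ring
  have hS : ∀ (G : SimpleGraph (Fin (2 * b + 3) × Fin n)) (S : Finset (Fin (2 * b + 3) → Fin n)),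
      (∀ T, T ∈ S ↔ ∀ i j, ¬ G.Adj (i, T i) (j, T j)) →
      {T : Fin (2 * b + 3) → Fin n | ∀ i j, ¬ G.Adj (i, T i) (j, T j)}.ncard = S.card := by
    intro G S h
    rw [← Set.ncard_coe_finset]
    congr 1
    ext T
    exact (h T).symm
  rw [e1] at hD
  rw [e0]
  constructor
  · intro G _ h2 h3
    have key := hlo n hn1 t ht (Fin (2 * b + 3) × Fin n) (Fin (2 * b + 3))
      Prod.fst G (by rw [Fintype.card_fin]; ring) (fun i => by
        have : pt Prod.fst (Finset.univ : Finset (Fin (2 * b + 3) × Fin n)) {i}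
            = {i} ×ˢ Finset.univ := by
          ext x
          simp only [mem_pt, Finset.mem_univ, true_and, Finset.mem_product, and_true]
        rw [this]
        simp) (fun x => by
        have e2 : nb G x = G.neighborFinset x := by ext y; simp
        have e3 : ((nb G x).card : ℝ) ≤ D := by
          rw [e2, SimpleGraph.card_neighborFinset_eq_degree]
          exact_mod_cast (G.degree_le_maxDegree x).trans h3
        have e4 : ((b + 1 : ℕ) : ℝ) / (2 * ((b + 1 : ℕ) : ℝ) - 1) * n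
            = (b + 1) * n / (2 * b + 1) := by
          have : (2 * ((b + 1 : ℕ) : ℝ) - 1) = 2 * b + 1 := by push_cast; ring
          rw [this]
          push_cast
          field_simp
        rw [e4]
        linarith)
    have h4 : (its G Prod.fst Finset.univ ∅).card ≤
        {T : Fin (2 * b + 3) → Fin n | ∀ i j, ¬ G.Adj (i, T i) (j, T j)}.ncard := by
      rw [hS G (Finset.univ.filter (fun T => ∀ i j, ¬ G.Adj (i, T i) (j, T j))) (by simp)]
      have h5 : ∀ T ∈ its G Prod.fst Finset.univ ∅, ∀ i, T i = (i, (T i).2) := fun T hT i =>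
        Prod.ext ((mem_its.1 hT).1 i (Finset.mem_univ _)).2 rfl
      refine Finset.card_le_card_of_injOn (fun T i => (T i).2) ?_ ?_
      · intro T hT
        refine Finset.mem_coe.2 (Finset.mem_filter.2 ⟨Finset.mem_univ _, fun i j => ?_⟩)
        by_cases hij : i = j
        · exact h2 _ _ hij
        · have := (mem_its.1 hT).2 i (Finset.mem_univ _) j (Finset.mem_univ _) hij
          rwa [h5 T hT i, h5 T hT j] at this
      · intro T hT T' hT' e
        funext i
        rw [h5 T hT i, h5 T' hT' i]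
        exact congrArg (Prod.mk i) (congrFun e i)
    have h4' : ((its G Prod.fst Finset.univ ∅).card : ℝ) ≤
        {T : Fin (2 * b + 3) → Fin n | ∀ i j, ¬ G.Adj (i, T i) (j, T j)}.ncard := by
      exact_mod_cast h4
    have hV : (n : ℝ) ≤ Fintype.card (Fin (2 * b + 3) × Fin n) := by
      rw [Fintype.card_prod, Fintype.card_fin, Fintype.card_fin]
      exact_mod_cast Nat.le_mul_of_pos_left n (by omega)
    generalize (Fintype.card (Fin (2 * b + 3) × Fin n) : ℝ) = v at key hV
    have hv : 0 < v := lt_of_lt_of_le hnR hV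
    have h6 : c * t ^ 2 * v ^ (2 * b + 1) ≤ (its G Prod.fst Finset.univ ∅).card := by
      refine le_of_mul_le_mul_right (le_trans (le_of_eq ?_) key) (pow_pos hv 2)
      ring
    have h7 := mul_le_mul_of_nonneg_left (pow_le_pow_left₀ hnR.le hV (2 * b + 1))
      (show 0 ≤ c * t ^ 2 by positivity)
    linarith
  · have hw0 : ((2 * b + 1) * D : ℝ) + (2 * b + 1) * t = (b + 1) * n := by
      rw [hD]
      field_simp
      ring
    have hlt : (2 * b + 1) * D < (b + 1) * n := by
      have : ((2 * b + 1) * D : ℝ) < (b + 1) * n := by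
        have := mul_pos hb ht
        linarith
      exact_mod_cast this
    obtain ⟨w, hw⟩ : ∃ w, (2 * b + 1) * D + w = (b + 1) * n := ⟨_, Nat.add_sub_cancel' hlt.le⟩
    have hwt : (w : ℝ) = (2 * b + 1) * t := by
      have : ((2 * b + 1) * D : ℝ) + w = (b + 1) * n := by exact_mod_cast hw
      linarith
    have hfin : ∀ N : ℕ, N * n ^ 2 ≤ 2 * ((6 * b + 5) * w) ^ 2 * n ^ (2 * b + 3) →
        (N : ℝ) ≤ 2 * ((6 * b + 5) * (2 * b + 1)) ^ 2 * t ^ 2 * (n : ℝ) ^ (2 * b + 1) := by
      intro N hN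
      have h1 : (N : ℝ) * n ^ 2 ≤ 2 * ((6 * b + 5) * w) ^ 2 * n ^ (2 * b + 3) := by
        exact_mod_cast hN
      refine le_of_mul_le_mul_right (h1.trans (le_of_eq ?_)) (pow_pos hnR 2)
      rw [hwt]
      ring
    by_cases hsm : (6 * b + 5) * w ≤ n
    · obtain ⟨G, g1, g2, g3⟩ := Low.few b D n w hw hsm (by omega)
      refine ⟨G, inferInstance, g1, G.maxDegree_le_of_forall_degree_le D fun x =>
        g2 x (G.neighborFinset x) fun y hy => (G.mem_neighborFinset x y).1 hy, hfin _ ?_⟩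
      rw [hS G (Finset.univ.filter (fun T => ∀ i j, ¬ G.Adj (i, T i) (j, T j))) (by simp)]
      refine g3.trans (Nat.mul_le_mul_right _ (Nat.mul_le_mul_left _ ?_))
      exact Nat.pow_le_pow_left (Nat.le_mul_of_pos_left _ (by omega)) 2
    · refine ⟨⊥, inferInstance, fun _ _ _ h => h, ?_, hfin _ ?_⟩
      · exact SimpleGraph.maxDegree_le_of_forall_degree_le _ D fun x => by simp
      · rw [hS ⊥ Finset.univ (by simp), Finset.card_univ, Fintype.card_fun, Fintype.card_fin,
          Fintype.card_fin, mul_comm]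
        refine Nat.mul_le_mul_right _ ?_
        have := Nat.pow_le_pow_left (not_le.1 hsm).le 2
        omega

end Pool.Agent.Results.MP_bc5f1c_co.OddCount
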